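import Pool.Agent.H735Z.Main

set_option autoImplicit false

/-- Wan's p-adic Riemann hypothesis for `ℤ_p`-towers of curves: the degree over `ℚ_p` of the
splitting field of the numerator `P n` of the zeta function tends to infinity. -/
theorem Pool.Agent.Results.MP_9f6d45_nt.Full.result (p : ℕ) [Fact p.Prime] (k K Ω : Type)
    [Field k] [Finite k] [CharP k p] [Field K] [Field Ω] [Algebra k K] [Algebra K Ω] [Algebra k Ω]
    [IsScalarTower k K Ω] (F : ℕ → IntermediateField K Ω) (hF : H735Z.IsZpTower p k F)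
    (hS : (H735Z.ramLocus k F).Finite) :
    ∃ P : ℕ → Polynomial ℤ,
      (∀ n, (((P n).map (Int.castRingHom ℚ) : Polynomial ℚ) : PowerSeries ℚ) =
        (1 - PowerSeries.X) * (1 - PowerSeries.C (Nat.card k : ℚ) * PowerSeries.X) *
          H735Z.zeta k (F n)) ∧
      Filter.Tendsto (fun n => Module.finrank ℚ_[p]
        (H735Z.rootField ℚ_[p] ((P n).map (Int.castRingHom ℂ_[p])))) Filter.atTop Filter.atTop := by
  obtain ⟨P, hP, m, N, hm, h⟩ := hF.pmain hS
  exact ⟨P, hP, H735Z.tendsto_of_bound (Fact.out : p.Prime).one_lt hm _ fun n hn => (h n hn).2⟩
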